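import Mathlib

open MeasureTheory ProbabilityTheory Filter Topology

namespace Pool.Agent.Results.MP_629fb1_pr.CapacityFormulaFails

/-- The law of a standard complex Gaussian variable: density `π⁻¹ exp(-|w|²)` on `ℂ`. -/
noncomputable def stdGauss : Measure ℂ :=
  (volume : Measure ℂ).withDensity (fun w => ENNReal.ofReal (Real.pi⁻¹ * Real.exp (-‖w‖ ^ 2)))

/-- The Gaussian entire function `f(z) = ∑ ξ_n z^n / √(n!)` with coefficients `ξ_n`. -/
noncomputable def gef {Ω : Type} (ξ : ℕ → Ω → ℂ) (ω : Ω) (z : ℂ) : ℂ :=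
  ∑' n : ℕ, ξ n ω * z ^ n / ((Real.sqrt (n.factorial : ℝ) : ℝ) : ℂ)

/-- The probability that `f` has no zero in `rK`. -/
noncomputable def holeProb {Ω : Type} [MeasurableSpace Ω] (μ : Measure Ω) (ξ : ℕ → Ω → ℂ)
    (K : Set ℂ) (r : ℝ) : ℝ :=
  (μ {ω | ∀ z ∈ K, gef ξ ω ((r : ℂ) * z) ≠ 0}).toReal

/-- The `n`-th diameter of `K`: the largest geometric mean of the mutual distances of `n` points
of `K` (product over ordered pairs of distinct indices, exponent `1/(n(n-1))`). -/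
noncomputable def nthDiam (K : Set ℂ) (n : ℕ) : ℝ :=
  sSup {x : ℝ | ∃ z : Fin n → ℂ, (∀ i, z i ∈ K) ∧
    x = (∏ p ∈ (Finset.univ : Finset (Fin n)).offDiag, ‖z p.1 - z p.2‖) ^
      (1 / ((n : ℝ) * ((n : ℝ) - 1)))}

/-- `c` is the transfinite diameter (logarithmic capacity) of `K`. -/
def HasCapacity (K : Set ℂ) (c : ℝ) : Prop := Tendsto (nthDiam K) atTop (𝓝 c)

/-! ### the deterministic part -/

/-- Taylor coefficients of `exp(z²/2)`, multiplied by `√(n!)`. -/
noncomputable def g (n : ℕ) : ℝ :=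
  if Even n then Real.sqrt (n.factorial : ℝ) / (2 ^ (n / 2) * ((n / 2).factorial : ℝ)) else 0

lemma g_nonneg (n : ℕ) : 0 ≤ g n := by
  unfold g; split_ifs <;> positivity

lemma g_le_one (n : ℕ) : g n ≤ 1 := by
  unfold g
  split_ifs with h
  · obtain ⟨k, rfl⟩ := h
    have hk : (k + k) / 2 = k := by omega
    rw [hk, div_le_one (by positivity)]
    apply Real.sqrt_le_iff.mpr
    refine ⟨by positivity, ?_⟩
    have h1 := Nat.centralBinom_le_four_pow k
    have h2 : k.centralBinom * k.factorial * k.factorial = (2 * k).factorial := by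
      rw [Nat.centralBinom_eq_two_mul_choose]
      have := Nat.choose_mul_factorial_mul_factorial (show k ≤ 2 * k by omega)
      rwa [show 2 * k - k = k by omega] at this
    have h3 : ((2 * k).factorial : ℝ) ≤ 4 ^ k * (k.factorial : ℝ) * (k.factorial : ℝ) := by
      rw [← h2]; push_cast
      gcongr
      exact_mod_cast h1
    calc (((k + k).factorial : ℕ) : ℝ) = ((2 * k).factorial : ℝ) := by rw [two_mul]
      _ ≤ 4 ^ k * (k.factorial : ℝ) * (k.factorial : ℝ) := h3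
      _ = (2 ^ k * (k.factorial : ℝ)) ^ 2 := by
        rw [show (4 : ℝ) = 2 ^ 2 by norm_num, ← pow_mul]; ring
  · exact zero_le_one

lemma hasSum_g (z : ℂ) :
    HasSum (fun n : ℕ => (g n : ℂ) * z ^ n / ((Real.sqrt (n.factorial : ℝ) : ℝ) : ℂ))
      (Complex.exp (z ^ 2 / 2)) := by
  have hodd : HasSum (fun k : ℕ => (g (2 * k + 1) : ℂ) * z ^ (2 * k + 1) /
      ((Real.sqrt ((2 * k + 1).factorial : ℝ) : ℝ) : ℂ)) 0 := by
    have : (fun k : ℕ => (g (2 * k + 1) : ℂ) * z ^ (2 * k + 1) /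
      ((Real.sqrt ((2 * k + 1).factorial : ℝ) : ℝ) : ℂ)) = fun _ => 0 := by
      funext k
      have : g (2 * k + 1) = 0 := by
        unfold g; rw [if_neg]; simp
      rw [this]; simp
    rw [this]; exact hasSum_zero
  have heven : HasSum (fun k : ℕ => (g (2 * k) : ℂ) * z ^ (2 * k) /
      ((Real.sqrt ((2 * k).factorial : ℝ) : ℝ) : ℂ)) (Complex.exp (z ^ 2 / 2)) := by
    have h0 := NormedSpace.expSeries_div_hasSum_exp (𝔸 := ℂ) (z ^ 2 / 2)
    rw [← Complex.exp_eq_exp_ℂ] at h0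
    have hfun : (fun k : ℕ => (g (2 * k) : ℂ) * z ^ (2 * k) /
      ((Real.sqrt ((2 * k).factorial : ℝ) : ℝ) : ℂ)) =
        fun k : ℕ => (z ^ 2 / 2) ^ k / (k.factorial : ℂ) := by
      funext k
      have h1 : g (2 * k) = Real.sqrt ((2 * k).factorial : ℝ) / (2 ^ k * (k.factorial : ℝ)) := by
        unfold g
        rw [if_pos (by simp), show 2 * k / 2 = k by omega]
      rw [h1]
      have h2 : ((Real.sqrt ((2 * k).factorial : ℝ) : ℝ) : ℂ) ≠ 0 := by
        have : Real.sqrt ((2 * k).factorial : ℝ) ≠ 0 := by positivity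
        exact_mod_cast this
      have h3 : (k.factorial : ℂ) ≠ 0 := by exact_mod_cast k.factorial_ne_zero
      push_cast
      rw [div_pow, ← pow_mul]
      field_simp
    rw [hfun]
    exact h0
  have := HasSum.even_add_odd (f := fun n : ℕ => (g n : ℂ) * z ^ n /
    ((Real.sqrt (n.factorial : ℝ) : ℝ) : ℂ)) heven hodd
  simpa using this

lemma pow_div_sqrt_le (R : ℝ) (hR : 0 ≤ R) (n : ℕ) :
    R ^ n / Real.sqrt (n.factorial : ℝ) ≤ Real.exp (R ^ 2 / 2) := by
  have h1 : (R ^ 2) ^ n / (n.factorial : ℝ) ≤ Real.exp (R ^ 2) :=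
    Real.pow_div_factorial_le_exp (R ^ 2) (by positivity) n
  have h2 : R ^ n / Real.sqrt (n.factorial : ℝ) = Real.sqrt ((R ^ 2) ^ n / (n.factorial : ℝ)) := by
    rw [Real.sqrt_div (by positivity), ← pow_mul, mul_comm, pow_mul, Real.sqrt_sq (by positivity)]
  rw [h2, Real.exp_half]
  exact Real.sqrt_le_sqrt h1

lemma pow_div_sqrt_le' (R : ℝ) (hR : 0 ≤ R) (n : ℕ) :
    R ^ n / Real.sqrt (n.factorial : ℝ) ≤ (1 / 4 : ℝ) ^ n * Real.exp (8 * R ^ 2) := by
  have h := pow_div_sqrt_le (4 * R) (by positivity) n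
  rw [show (4 * R) ^ 2 / 2 = 8 * R ^ 2 by ring, mul_pow] at h
  have h4 : (0 : ℝ) < 4 ^ n := by positivity
  have : R ^ n / Real.sqrt (n.factorial : ℝ)
      = (1 / 4 : ℝ) ^ n * (4 ^ n * R ^ n / Real.sqrt (n.factorial : ℝ)) := by
    rw [one_div, inv_pow]; field_simp
  rw [this]
  gcongr

/-- If the coefficients are close to those of `exp(z²/2)`, then the function does not vanish. -/
lemma nonvanish (N : ℕ) (ε R : ℝ) (hε : 0 < ε) (w : ℕ → ℂ) (z : ℂ)
    (h1 : ∀ n ≤ N, ‖w n - (g n : ℂ)‖ ≤ ε) (h2 : ∀ n, N < n → ‖w n‖ ≤ 2 ^ n)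
    (hz : ‖z‖ ≤ R)
    (hsmall : (N + 1) * ε * Real.exp (‖z‖ ^ 2 / 2) + 4 * (1 / 2 : ℝ) ^ N * Real.exp (8 * R ^ 2)
      < Real.exp ((z ^ 2 / 2).re)) :
    (∑' n : ℕ, w n * z ^ n / ((Real.sqrt (n.factorial : ℝ) : ℝ) : ℂ)) ≠ 0 := by
  have hR : 0 ≤ R := le_trans (norm_nonneg _) hz
  set t : ℕ → ℂ := fun n => (w n - (g n : ℂ)) * z ^ n / ((Real.sqrt (n.factorial : ℝ) : ℝ) : ℂ)
    with ht
  set b1 : ℕ → ℝ := fun n => if n ≤ N then ε * Real.exp (‖z‖ ^ 2 / 2) else 0 with hb1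
  set b2 : ℕ → ℝ := fun n => if N < n then 2 * (1 / 2 : ℝ) ^ n * Real.exp (8 * R ^ 2) else 0
    with hb2
  have hnorm : ∀ n, ‖t n‖ = ‖w n - (g n : ℂ)‖ * (‖z‖ ^ n / Real.sqrt (n.factorial : ℝ)) := by
    intro n
    simp only [ht, norm_div, norm_mul, norm_pow, Complex.norm_real, Real.norm_eq_abs,
      abs_of_nonneg (Real.sqrt_nonneg _)]
    ring
  have hbound : ∀ n, ‖t n‖ ≤ b1 n + b2 n := by
    intro n
    rw [hnorm n]
    by_cases hn : n ≤ N
    · have : ¬ N < n := by omega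
      simp only [hb1, hb2, if_pos hn, if_neg this, add_zero]
      gcongr
      · exact h1 n hn
      · exact pow_div_sqrt_le _ (norm_nonneg _) n
    · have hn' : N < n := by omega
      simp only [hb1, hb2, if_neg hn, if_pos hn', zero_add]
      have hw : ‖w n - (g n : ℂ)‖ ≤ 2 * 2 ^ n := by
        calc ‖w n - (g n : ℂ)‖ ≤ ‖w n‖ + ‖(g n : ℂ)‖ := norm_sub_le _ _
          _ ≤ 2 ^ n + 1 := by
            gcongr
            · exact h2 n hn'
            · rw [Complex.norm_real, Real.norm_eq_abs, abs_of_nonneg (g_nonneg n)]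
              exact g_le_one n
          _ ≤ 2 * 2 ^ n := by
            have : (1 : ℝ) ≤ 2 ^ n := one_le_pow₀ (by norm_num)
            linarith
      calc ‖w n - (g n : ℂ)‖ * (‖z‖ ^ n / Real.sqrt (n.factorial : ℝ))
          ≤ (2 * 2 ^ n) * ((1 / 4 : ℝ) ^ n * Real.exp (8 * ‖z‖ ^ 2)) := by
            gcongr
            exact pow_div_sqrt_le' _ (norm_nonneg _) n
        _ ≤ (2 * 2 ^ n) * ((1 / 4 : ℝ) ^ n * Real.exp (8 * R ^ 2)) := by gcongr
        _ = 2 * (1 / 2 : ℝ) ^ n * Real.exp (8 * R ^ 2) := by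
            rw [show (1 / 4 : ℝ) = (1 / 2) * (1 / 2) by norm_num, mul_pow]
            have : (2 : ℝ) ^ n * (1 / 2) ^ n = 1 := by rw [← mul_pow]; norm_num
            calc 2 * 2 ^ n * ((1 / 2 : ℝ) ^ n * (1 / 2) ^ n * Real.exp (8 * R ^ 2))
                = 2 * (2 ^ n * (1 / 2 : ℝ) ^ n) * (1 / 2) ^ n * Real.exp (8 * R ^ 2) := by ring
              _ = _ := by rw [this]; ring
  have hs1 : HasSum b1 ((N + 1) * ε * Real.exp (‖z‖ ^ 2 / 2)) := by
    have : ∑ n ∈ Finset.range (N + 1), b1 n = (N + 1) * ε * Real.exp (‖z‖ ^ 2 / 2) := by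
      rw [Finset.sum_congr rfl (g := fun _ => ε * Real.exp (‖z‖ ^ 2 / 2))]
      · rw [Finset.sum_const, Finset.card_range, nsmul_eq_mul]; push_cast; ring
      · intro n hn
        have : n ≤ N := by have := Finset.mem_range.mp hn; omega
        simp only [hb1, if_pos this]
    rw [← this]
    apply hasSum_sum_of_ne_finset_zero
    intro n hn
    have : ¬ n ≤ N := by
      intro h; exact hn (Finset.mem_range.mpr (by omega))
    simp only [hb1, if_neg this]
  have hs2 : Summable b2 := by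
    apply Summable.of_nonneg_of_le (f := fun n => 2 * (1 / 2 : ℝ) ^ n * Real.exp (8 * R ^ 2))
    · intro n; simp only [hb2]; split_ifs <;> positivity
    · intro n; simp only [hb2]; split_ifs
      · exact le_rfl
      · positivity
    · exact ((summable_geometric_two).mul_left 2).mul_right _
  have hs2' : ∑' n, b2 n ≤ 4 * (1 / 2 : ℝ) ^ N * Real.exp (8 * R ^ 2) := by
    have e1 : ∑' n, b2 n = ∑ n ∈ Finset.range N, b2 n + ∑' n, b2 (n + N) :=
      (hs2.sum_add_tsum_nat_add N).symm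
    have e2 : ∑ n ∈ Finset.range N, b2 n = 0 := by
      apply Finset.sum_eq_zero
      intro n hn
      have : ¬ N < n := by have := Finset.mem_range.mp hn; omega
      simp only [hb2, if_neg this]
    have e3 : ∑' n, b2 (n + N) ≤ ∑' n : ℕ, (2 * (1 / 2 : ℝ) ^ N * Real.exp (8 * R ^ 2)) * (1 / 2 : ℝ) ^ n := by
      apply Summable.tsum_le_tsum
      · intro n
        simp only [hb2]
        split_ifs
        · rw [pow_add]; apply le_of_eq; ring
        · positivity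
      · exact (summable_nat_add_iff N).mpr hs2
      · exact summable_geometric_two.mul_left _
    rw [tsum_mul_left, tsum_geometric_two] at e3
    rw [e1, e2, zero_add]
    linarith
  have hst : Summable t := by
    apply Summable.of_norm_bounded (hs1.summable.add hs2) hbound
  have hsum : HasSum (fun n : ℕ => w n * z ^ n / ((Real.sqrt (n.factorial : ℝ) : ℝ) : ℂ))
      (∑' n, t n + Complex.exp (z ^ 2 / 2)) := by
    have := hst.hasSum.add (hasSum_g z)
    convert this using 2 with n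
    simp only [ht]; ring
  rw [hsum.tsum_eq]
  intro h0
  have h3 : ‖∑' n, t n‖ ≤ ∑' n, (b1 n + b2 n) := by
    apply tsum_of_norm_bounded (hs1.summable.add hs2).hasSum hbound
  have h4 : ∑' n, (b1 n + b2 n) ≤ (N + 1) * ε * Real.exp (‖z‖ ^ 2 / 2)
      + 4 * (1 / 2 : ℝ) ^ N * Real.exp (8 * R ^ 2) := by
    rw [hs1.summable.tsum_add hs2, hs1.tsum_eq]
    linarith
  have h5 : ‖∑' n, t n‖ = Real.exp ((z ^ 2 / 2).re) := by
    have : ∑' n, t n = - Complex.exp (z ^ 2 / 2) := by linear_combination h0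
    rw [this, norm_neg, Complex.norm_exp]
  linarith

/-! ### Gaussian estimates -/

lemma stdGauss_ball (a : ℂ) (ha : ‖a‖ ≤ 1) (ε : ℝ) (hε : 0 < ε) (hε1 : ε ≤ 1) :
    ENNReal.ofReal (Real.exp (-4) * ε ^ 2) ≤ stdGauss (Metric.ball a ε) := by
  rw [stdGauss, withDensity_apply _ measurableSet_ball]
  calc ENNReal.ofReal (Real.exp (-4) * ε ^ 2)
      = ENNReal.ofReal (Real.pi⁻¹ * Real.exp (-4)) * volume (Metric.ball a ε) := by
        rw [Complex.volume_ball, ← ENNReal.ofReal_pow hε.le]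
        rw [show ((NNReal.pi : NNReal) : ENNReal) = ENNReal.ofReal Real.pi by
          rw [ENNReal.ofReal, ← NNReal.coe_real_pi, Real.toNNReal_coe]]
        rw [← ENNReal.ofReal_mul (by positivity), ← ENNReal.ofReal_mul (by positivity)]
        congr 1
        field_simp
    _ = ∫⁻ _ in Metric.ball a ε, ENNReal.ofReal (Real.pi⁻¹ * Real.exp (-4)) := by
        rw [setLIntegral_const]
    _ ≤ ∫⁻ w in Metric.ball a ε, ENNReal.ofReal (Real.pi⁻¹ * Real.exp (-‖w‖ ^ 2)) := by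
        apply setLIntegral_mono' measurableSet_ball
        intro w hw
        apply ENNReal.ofReal_le_ofReal
        have h1 : ‖w‖ ≤ 2 := by
          have : ‖w - a‖ < ε := by simpa [dist_eq_norm] using hw
          calc ‖w‖ = ‖(w - a) + a‖ := by ring_nf
            _ ≤ ‖w - a‖ + ‖a‖ := norm_add_le _ _
            _ ≤ 2 := by linarith
        gcongr
        nlinarith [norm_nonneg w]

lemma lintegral_gauss_half :
    ∫⁻ w : ℂ, ENNReal.ofReal (Real.exp (-(1 / 2) * ‖w‖ ^ 2)) = ENNReal.ofReal (2 * Real.pi) := by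
  have hint : Integrable (fun w : ℂ => Real.exp (-(1 / 2) * ‖w‖ ^ 2)) := by
    have h := (GaussianFourier.integrable_cexp_neg_mul_sq_norm_add (V := ℂ) (b := 1 / 2)
      (by norm_num) 0 0).norm
    refine h.congr ?_
    refine Filter.Eventually.of_forall (fun w => ?_)
    simp only [Complex.norm_exp]
    congr 1
    simp [← Complex.ofReal_pow]
  rw [← ofReal_integral_eq_lintegral_ofReal hint (Filter.Eventually.of_forall fun w => by positivity)]
  rw [GaussianFourier.integral_rexp_neg_mul_sq_norm (V := ℂ) (by norm_num : (0 : ℝ) < 1 / 2)]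
  congr 1
  rw [Complex.finrank_real_complex]
  norm_num
  ring

lemma stdGauss_compl (n : ℕ) (hn : 2 ≤ n) :
    stdGauss (Metric.closedBall 0 (2 ^ n))ᶜ ≤ ENNReal.ofReal ((1 / 2) ^ (n + 1)) := by
  have hm : MeasurableSet (Metric.closedBall (0 : ℂ) (2 ^ n))ᶜ := measurableSet_closedBall.compl
  rw [stdGauss, withDensity_apply _ hm]
  have key : 2 * Real.exp (-(4 : ℝ) ^ n / 2) ≤ (1 / 2 : ℝ) ^ (n + 1) := by
    have h1 : ((4 : ℝ) ^ n / 2) ^ 2 / 2 ≤ Real.exp ((4 : ℝ) ^ n / 2) := by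
      have := Real.pow_div_factorial_le_exp ((4 : ℝ) ^ n / 2) (by positivity) 2
      simpa using this
    have h2 : (2 : ℝ) ^ (n + 2) ≤ ((4 : ℝ) ^ n / 2) ^ 2 / 2 := by
      obtain ⟨m, rfl⟩ : ∃ m, n = m + 2 := ⟨n - 2, by omega⟩
      have : ((4 : ℝ) ^ (m + 2) / 2) ^ 2 / 2 = 2 ^ (m + 4) * (2 * 8 ^ m) := by
        have e4 : (4 : ℝ) ^ m = 2 ^ m * 2 ^ m := by rw [← mul_pow]; norm_num
        have e8 : (8 : ℝ) ^ m = 2 ^ m * 2 ^ m * 2 ^ m := by rw [← mul_pow, ← mul_pow]; norm_num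
        rw [pow_add, pow_add, e4, e8]
        ring
      rw [this]
      have h8 : (1 : ℝ) ≤ 8 ^ m := one_le_pow₀ (by norm_num)
      have h9 : (0 : ℝ) < 2 ^ (m + 4) := by positivity
      nlinarith
    have h3 : (2 : ℝ) ^ (n + 2) ≤ Real.exp ((4 : ℝ) ^ n / 2) := h2.trans h1
    have h4 : Real.exp (-(4 : ℝ) ^ n / 2) = (Real.exp ((4 : ℝ) ^ n / 2))⁻¹ := by
      rw [← Real.exp_neg]; congr 1; ring
    rw [h4, one_div, inv_pow]
    have h5 : (Real.exp ((4 : ℝ) ^ n / 2))⁻¹ ≤ ((2 : ℝ) ^ (n + 2))⁻¹ := by gcongr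
    calc 2 * (Real.exp ((4 : ℝ) ^ n / 2))⁻¹ ≤ 2 * ((2 : ℝ) ^ (n + 2))⁻¹ := by gcongr
      _ = ((2 : ℝ) ^ (n + 1))⁻¹ := by rw [pow_succ 2 (n + 1)]; field_simp
  calc ∫⁻ w in (Metric.closedBall (0 : ℂ) (2 ^ n))ᶜ,
        ENNReal.ofReal (Real.pi⁻¹ * Real.exp (-‖w‖ ^ 2))
      ≤ ∫⁻ w in (Metric.closedBall (0 : ℂ) (2 ^ n))ᶜ,
        ENNReal.ofReal (Real.pi⁻¹ * Real.exp (-(4 : ℝ) ^ n / 2)) *
          ENNReal.ofReal (Real.exp (-(1 / 2) * ‖w‖ ^ 2)) := by
        apply setLIntegral_mono' hm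
        intro w hw
        rw [← ENNReal.ofReal_mul (by positivity)]
        apply ENNReal.ofReal_le_ofReal
        have h1 : (2 : ℝ) ^ n < ‖w‖ := by simpa using hw
        have h2 : (4 : ℝ) ^ n ≤ ‖w‖ ^ 2 := by
          rw [show (4 : ℝ) = 2 ^ 2 by norm_num, ← pow_mul, mul_comm, pow_mul]
          gcongr
        rw [mul_assoc, ← Real.exp_add]
        gcongr
        nlinarith
    _ ≤ ∫⁻ w : ℂ, ENNReal.ofReal (Real.pi⁻¹ * Real.exp (-(4 : ℝ) ^ n / 2)) *
          ENNReal.ofReal (Real.exp (-(1 / 2) * ‖w‖ ^ 2)) := setLIntegral_le_lintegral _ _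
    _ = ENNReal.ofReal (Real.pi⁻¹ * Real.exp (-(4 : ℝ) ^ n / 2)) * ENNReal.ofReal (2 * Real.pi) := by
        rw [lintegral_const_mul' _ _ ENNReal.ofReal_ne_top, lintegral_gauss_half]
    _ = ENNReal.ofReal (2 * Real.exp (-(4 : ℝ) ^ n / 2)) := by
        rw [← ENNReal.ofReal_mul (by positivity)]
        congr 1
        have := Real.pi_ne_zero
        field_simp
    _ ≤ ENNReal.ofReal ((1 / 2) ^ (n + 1)) := ENNReal.ofReal_le_ofReal key


lemma prob_event {Ω : Type} [MeasurableSpace Ω] (μ : Measure Ω) [IsProbabilityMeasure μ]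
    (ξ : ℕ → Ω → ℂ) (hm : ∀ n, Measurable (ξ n)) (hind : iIndepFun ξ μ)
    (hlaw : ∀ n, μ.map (ξ n) = stdGauss) (N : ℕ) (hN : 1 ≤ N) (ε : ℝ) (hε : 0 < ε) (hε1 : ε ≤ 1) :
    (Real.exp (-4) * ε ^ 2) ^ (N + 1) / 2 ≤
      μ.real {ω | (∀ n ≤ N, ‖ξ n ω - (g n : ℂ)‖ ≤ ε) ∧ ∀ n, N < n → ‖ξ n ω‖ ≤ 2 ^ n} := by
  classical
  set A : ℕ → Set ℂ := fun n => if n ≤ N then Metric.ball (g n : ℂ) ε
    else Metric.closedBall 0 (2 ^ n) with hA
  have hAm : ∀ n, MeasurableSet (A n) := by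
    intro n; simp only [hA]; split_ifs
    · exact measurableSet_ball
    · exact measurableSet_closedBall
  set q : ℝ := Real.exp (-4) * ε ^ 2 with hq
  have hqpos : 0 < q := by positivity
  have hp1 : ∀ n ≤ N, q ≤ μ.real (ξ n ⁻¹' A n) := by
    intro n hn
    have h1 : ENNReal.ofReal q ≤ μ (ξ n ⁻¹' A n) := by
      rw [← Measure.map_apply (hm n) (hAm n), hlaw n]
      simp only [hA, if_pos hn]
      apply stdGauss_ball _ _ ε hε hε1
      rw [Complex.norm_real, Real.norm_eq_abs, abs_of_nonneg (g_nonneg n)]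
      exact g_le_one n
    rw [measureReal_def]
    exact (ENNReal.ofReal_le_iff_le_toReal (measure_ne_top _ _)).mp h1
  have hp2 : ∀ n, N < n → 1 - (1 / 2 : ℝ) ^ (n + 1) ≤ μ.real (ξ n ⁻¹' A n) := by
    intro n hn
    have hn' : ¬ n ≤ N := by omega
    have h1 : μ (ξ n ⁻¹' (A n)ᶜ) ≤ ENNReal.ofReal ((1 / 2) ^ (n + 1)) := by
      rw [← Measure.map_apply (hm n) (hAm n).compl, hlaw n]
      simp only [hA, if_neg hn']
      exact stdGauss_compl n (by omega)
    have h2 : μ.real (ξ n ⁻¹' (A n)ᶜ) ≤ (1 / 2) ^ (n + 1) := by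
      rw [measureReal_def]
      exact ENNReal.toReal_le_of_le_ofReal (by positivity) h1
    have h3 : μ.real (ξ n ⁻¹' (A n)ᶜ) = 1 - μ.real (ξ n ⁻¹' A n) := by
      rw [Set.preimage_compl, probReal_compl_eq_one_sub ((hm n) (hAm n))]
    linarith
  set s : ℕ → Set Ω := fun M => ⋂ n ∈ Finset.range M, ξ n ⁻¹' A n with hs
  have hprod : ∀ M, μ.real (s M) = ∏ n ∈ Finset.range M, μ.real (ξ n ⁻¹' A n) := by
    intro M
    have := hind.measure_inter_preimage_eq_mul (Finset.range M) (sets := A) (fun n _ => hAm n)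
    simp only [measureReal_def, hs]
    rw [this, ENNReal.toReal_prod]
  have hlow : ∀ k : ℕ, q ^ (N + 1) * (1 / 2 + (1 / 2) ^ (k + 1)) ≤ μ.real (s (N + 1 + k)) := by
    intro k
    rw [hprod]
    induction k with
    | zero =>
      simp only [add_zero, zero_add, pow_one]
      calc q ^ (N + 1) * (1 / 2 + 1 / 2) = ∏ n ∈ Finset.range (N + 1), q := by
            rw [Finset.prod_const, Finset.card_range]; ring
        _ ≤ ∏ n ∈ Finset.range (N + 1), μ.real (ξ n ⁻¹' A n) := by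
            apply Finset.prod_le_prod
            · intro n _; exact hqpos.le
            · intro n hn
              exact hp1 n (by have := Finset.mem_range.mp hn; omega)
    | succ k ih =>
      rw [show N + 1 + (k + 1) = (N + 1 + k) + 1 by ring, Finset.prod_range_succ]
      have h1 : 1 - (1 / 2 : ℝ) ^ (k + 2) ≤ μ.real (ξ (N + 1 + k) ⁻¹' A (N + 1 + k)) := by
        refine le_trans ?_ (hp2 (N + 1 + k) (by omega))
        have : (1 / 2 : ℝ) ^ (N + 1 + k + 1) ≤ (1 / 2) ^ (k + 2) :=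
          pow_le_pow_of_le_one (by norm_num) (by norm_num) (by omega)
        linarith
      have h0 : 0 ≤ 1 - (1 / 2 : ℝ) ^ (k + 2) := by
        have : (1 / 2 : ℝ) ^ (k + 2) ≤ 1 := pow_le_one₀ (by norm_num) (by norm_num)
        linarith
      calc q ^ (N + 1) * (1 / 2 + (1 / 2) ^ (k + 1 + 1))
          ≤ (q ^ (N + 1) * (1 / 2 + (1 / 2) ^ (k + 1))) * (1 - (1 / 2) ^ (k + 2)) := by
            rw [mul_assoc]
            apply mul_le_mul_of_nonneg_left _ (by positivity)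
            set x : ℝ := (1 / 2 : ℝ) ^ k with hx
            have hx0 : 0 < x := by positivity
            have hx1 : x ≤ 1 := pow_le_one₀ (by norm_num) (by norm_num)
            have e1 : (1 / 2 : ℝ) ^ (k + 1) = x / 2 := by rw [pow_succ]; ring
            have e2 : (1 / 2 : ℝ) ^ (k + 2) = x / 4 := by rw [pow_add]; ring
            rw [e1, e2]
            nlinarith
        _ ≤ _ := by
            apply mul_le_mul ih h1 h0 (Finset.prod_nonneg (fun _ _ => measureReal_nonneg))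
  have hanti : Antitone s := by
    intro M M' hMM'
    simp only [hs]
    apply Set.biInter_subset_biInter_left
    intro n hn
    simp only [Finset.coe_range, Set.mem_Iio, Finset.mem_range] at hn ⊢
    omega
  have hmeas : ∀ M, MeasurableSet (s M) := by
    intro M
    exact Finset.measurableSet_biInter _ (fun n _ => (hm n) (hAm n))
  have hlim : Tendsto (fun M => μ.real (s M)) atTop (𝓝 (μ.real (⋂ M, s M))) := by
    have := tendsto_measure_iInter_atTop (μ := μ) (fun M => (hmeas M).nullMeasurableSet) hanti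
      ⟨0, measure_ne_top _ _⟩
    exact (ENNReal.tendsto_toReal (measure_ne_top _ _)).comp this
  have h1 : q ^ (N + 1) / 2 ≤ μ.real (⋂ M, s M) := by
    apply ge_of_tendsto hlim
    filter_upwards [eventually_ge_atTop (N + 1)] with M hM
    obtain ⟨k, rfl⟩ := Nat.exists_eq_add_of_le hM
    refine le_trans ?_ (hlow k)
    have : 0 ≤ q ^ (N + 1) * (1 / 2 : ℝ) ^ (k + 1) := by positivity
    linarith
  refine h1.trans (measureReal_mono ?_)
  intro ω hω
  have hω' : ∀ n, ξ n ω ∈ A n := by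
    intro n
    have := Set.mem_iInter.mp hω (n + 1)
    simp only [hs, Set.mem_iInter] at this
    exact this n (Finset.mem_range.mpr (by omega))
  refine ⟨fun n hn => ?_, fun n hn => ?_⟩
  · have := hω' n
    simp only [hA, if_pos hn, Metric.mem_ball, dist_eq_norm] at this
    exact this.le
  · have := hω' n
    have hn' : ¬ n ≤ N := by omega
    simpa [hA, if_neg hn'] using this

/-- The thin closed rectangle `[-1,1] × [-1/1000, 1/1000]`. -/
def thinRect : Set ℂ := {z : ℂ | |z.re| ≤ 1 ∧ |z.im| ≤ 1 / 1000}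

lemma small_enough (r : ℝ) (hr : 2 ≤ r) (N : ℕ) (hN : 16 * r ^ 2 ≤ N) (z : ℂ)
    (hx : |z.re| ≤ r) (hy : |z.im| ≤ r / 1000) :
    (N + 1) * (Real.exp (-(r ^ 2 / 1000000)) / (4 * (N + 1))) * Real.exp (‖z‖ ^ 2 / 2) +
      4 * (1 / 2 : ℝ) ^ N * Real.exp (8 * (Real.sqrt (1001 / 1000 * r ^ 2)) ^ 2)
      < Real.exp ((z ^ 2 / 2).re) := by
  have hnorm : ‖z‖ ^ 2 = z.re ^ 2 + z.im ^ 2 := by
    rw [Complex.sq_norm, Complex.normSq_apply]; ring
  have hre : (z ^ 2 / 2).re = (z.re ^ 2 - z.im ^ 2) / 2 := by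
    rw [sq]
    simp [Complex.mul_re]
    ring
  have hy2 : z.im ^ 2 ≤ r ^ 2 / 1000000 := by
    have := sq_le_sq' (by linarith [abs_le.mp hy |>.1]) (abs_le.mp hy).2
    calc z.im ^ 2 ≤ (r / 1000) ^ 2 := this
      _ = r ^ 2 / 1000000 := by ring
  have hx0 : 0 ≤ z.re ^ 2 := sq_nonneg _
  have hN1 : (0 : ℝ) < N + 1 := by positivity
  have e1 : (N + 1) * (Real.exp (-(r ^ 2 / 1000000)) / (4 * (N + 1))) * Real.exp (‖z‖ ^ 2 / 2)
      = 1 / 4 * Real.exp (-(r ^ 2 / 1000000) + ‖z‖ ^ 2 / 2) := by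
    rw [Real.exp_add]; field_simp
  have e2 : 1 / 4 * Real.exp (-(r ^ 2 / 1000000) + ‖z‖ ^ 2 / 2)
      ≤ 1 / 4 * Real.exp ((z ^ 2 / 2).re) := by
    rw [hre, hnorm]
    gcongr
    linarith
  have e3 : (1 / 2 : ℝ) ^ N ≤ Real.exp (-(11 * r ^ 2)) := by
    have h2 : (1 / 2 : ℝ) ^ N = Real.exp (-(N * Real.log 2)) := by
      rw [← Real.rpow_natCast, Real.rpow_def_of_pos (by norm_num)]
      congr 1
      rw [one_div, Real.log_inv]; ring
    rw [h2]
    apply Real.exp_le_exp.mpr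
    have hl := Real.log_two_gt_d9
    nlinarith [sq_nonneg r]
  have e4 : (Real.sqrt (1001 / 1000 * r ^ 2)) ^ 2 = 1001 / 1000 * r ^ 2 :=
    Real.sq_sqrt (by positivity)
  have e8 : 4 * Real.exp (-(2 * r ^ 2)) ≤ 1 / 2 := by
    have h8 : 8 ≤ Real.exp (2 * r ^ 2) := by
      have := Real.add_one_le_exp (2 * r ^ 2)
      nlinarith
    rw [Real.exp_neg]
    have hp : 0 < Real.exp (2 * r ^ 2) := Real.exp_pos _
    rw [← div_eq_mul_inv, div_le_iff₀ hp]
    linarith
  have e5 : 4 * (1 / 2 : ℝ) ^ N * Real.exp (8 * (Real.sqrt (1001 / 1000 * r ^ 2)) ^ 2)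
      ≤ 1 / 2 * Real.exp ((z ^ 2 / 2).re) := by
    rw [e4]
    have s1 : 4 * (1 / 2 : ℝ) ^ N * Real.exp (8 * (1001 / 1000 * r ^ 2))
        ≤ 4 * Real.exp (-(11 * r ^ 2)) * Real.exp (8 * (1001 / 1000 * r ^ 2)) := by gcongr
    have s2 : 4 * Real.exp (-(11 * r ^ 2)) * Real.exp (8 * (1001 / 1000 * r ^ 2))
        = 4 * Real.exp (-(11 * r ^ 2) + 8 * (1001 / 1000 * r ^ 2)) := by
      rw [mul_assoc, ← Real.exp_add]
    have s3 : Real.exp (-(11 * r ^ 2) + 8 * (1001 / 1000 * r ^ 2))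
        ≤ Real.exp (-(2 * r ^ 2) + (z ^ 2 / 2).re) := by
      apply Real.exp_le_exp.mpr
      rw [hre]
      nlinarith [sq_nonneg r]
    have s4 : 4 * Real.exp (-(2 * r ^ 2) + (z ^ 2 / 2).re)
        = (4 * Real.exp (-(2 * r ^ 2))) * Real.exp ((z ^ 2 / 2).re) := by
      rw [Real.exp_add]; ring
    have s5 : (4 * Real.exp (-(2 * r ^ 2))) * Real.exp ((z ^ 2 / 2).re)
        ≤ 1 / 2 * Real.exp ((z ^ 2 / 2).re) :=
      mul_le_mul_of_nonneg_right e8 (Real.exp_pos _).le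
    linarith
  have hpos : 0 < Real.exp ((z ^ 2 / 2).re) := Real.exp_pos _
  rw [e1]
  linarith

lemma hole_lower {Ω : Type} [MeasurableSpace Ω] (μ : Measure Ω) [IsProbabilityMeasure μ]
    (ξ : ℕ → Ω → ℂ) (hm : ∀ n, Measurable (ξ n)) (hind : iIndepFun ξ μ)
    (hlaw : ∀ n, μ.map (ξ n) = stdGauss) (r : ℝ) (hr : 2 ≤ r) :
    (Real.exp (-4) * (Real.exp (-(r ^ 2 / 1000000)) / (4 * (⌈16 * r ^ 2⌉₊ + 1))) ^ 2) ^
      (⌈16 * r ^ 2⌉₊ + 1) / 2 ≤ holeProb μ ξ thinRect r := by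
  set N : ℕ := ⌈16 * r ^ 2⌉₊ with hNdef
  have hN : 16 * r ^ 2 ≤ N := Nat.le_ceil _
  have hN1 : 1 ≤ N := by
    have : (1 : ℝ) ≤ N := by nlinarith
    exact_mod_cast this
  have hε : 0 < Real.exp (-(r ^ 2 / 1000000)) / (4 * ((N : ℝ) + 1)) := by positivity
  have hε1 : Real.exp (-(r ^ 2 / 1000000)) / (4 * ((N : ℝ) + 1)) ≤ 1 := by
    rw [div_le_one (by positivity)]
    have : Real.exp (-(r ^ 2 / 1000000)) ≤ 1 := by
      rw [Real.exp_le_one_iff]
      have := sq_nonneg r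
      linarith
    have h0 : (0 : ℝ) ≤ N := Nat.cast_nonneg _
    linarith
  refine (prob_event μ ξ hm hind hlaw N hN1 _ hε hε1).trans ?_
  rw [holeProb, measureReal_def]
  apply ENNReal.toReal_mono (measure_ne_top _ _)
  apply measure_mono
  rintro ω ⟨h1, h2⟩ w hw
  have hw' : |w.re| ≤ 1 ∧ |w.im| ≤ 1 / 1000 := hw
  have hr0 : 0 ≤ r := by linarith
  have hx : |((r : ℂ) * w).re| ≤ r := by
    rw [Complex.re_ofReal_mul, abs_mul, abs_of_nonneg hr0]
    nlinarith [hw'.1]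
  have hy : |((r : ℂ) * w).im| ≤ r / 1000 := by
    rw [Complex.im_ofReal_mul, abs_mul, abs_of_nonneg hr0]
    nlinarith [hw'.2]
  have hR : ‖(r : ℂ) * w‖ ≤ Real.sqrt (1001 / 1000 * r ^ 2) := by
    apply Real.le_sqrt_of_sq_le
    have : ‖(r : ℂ) * w‖ ^ 2 = ((r : ℂ) * w).re ^ 2 + ((r : ℂ) * w).im ^ 2 := by
      rw [Complex.sq_norm, Complex.normSq_apply]; ring
    rw [this]
    have a1 : ((r : ℂ) * w).re ^ 2 ≤ r ^ 2 := by
      rw [← sq_abs]; gcongr
    have a2 : ((r : ℂ) * w).im ^ 2 ≤ (r / 1000) ^ 2 := by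
      rw [← sq_abs]; gcongr
    nlinarith
  exact nonvanish N _ _ hε (fun n => ξ n ω) _ h1 h2 hR (small_enough r hr N hN _ hx hy)

lemma cost_bound (r : ℝ) (hr : 1000000 ≤ r) :
    Real.exp (-(r ^ 4 / 1000)) ≤
    (Real.exp (-4) * (Real.exp (-(r ^ 2 / 1000000)) / (4 * (⌈16 * r ^ 2⌉₊ + 1))) ^ 2) ^
      (⌈16 * r ^ 2⌉₊ + 1) / 2 := by
  set N : ℕ := ⌈16 * r ^ 2⌉₊ with hNdef
  have hN2 : (N : ℝ) + 1 ≤ 17 * r ^ 2 := by
    have := Nat.ceil_lt_add_one (show (0 : ℝ) ≤ 16 * r ^ 2 by positivity)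
    have h2 : (2 : ℝ) ≤ r ^ 2 := by nlinarith
    rw [← hNdef] at this
    linarith
  have hNpos : (0 : ℝ) < (N : ℝ) + 1 := by positivity
  have hlog : Real.log (4 * ((N : ℝ) + 1)) ≤ 18 * r := by
    have h1 : 4 * ((N : ℝ) + 1) ≤ (9 * r) ^ 2 := by nlinarith
    calc Real.log (4 * ((N : ℝ) + 1)) ≤ Real.log ((9 * r) ^ 2) :=
          Real.log_le_log (by positivity) h1
      _ = 2 * Real.log (9 * r) := by rw [Real.log_pow]; norm_num
      _ ≤ 2 * (9 * r) := by
          have := Real.log_le_sub_one_of_pos (show 0 < 9 * r by linarith)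
          linarith
      _ = 18 * r := by ring
  set q : ℝ := Real.exp (-4) * (Real.exp (-(r ^ 2 / 1000000)) / (4 * ((N : ℝ) + 1))) ^ 2 with hq
  have hqpos : 0 < q := by positivity
  have hlogq : -(4 + 2 * (r ^ 2 / 1000000) + 36 * r) ≤ Real.log q := by
    rw [hq, Real.log_mul (by positivity) (by positivity), Real.log_exp, Real.log_pow,
      Real.log_div (by positivity) (by positivity), Real.log_exp]
    push_cast
    linarith
  have hl2 : Real.log 2 ≤ 1 := by
    have := Real.log_two_lt_d9; linarith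
  have h1 : -(r ^ 4 / 1000) ≤ Real.log (q ^ (N + 1) / 2) := by
    rw [Real.log_div (by positivity) (by norm_num), Real.log_pow]
    push_cast
    have h3 : -(17 * r ^ 2 * (4 + 2 * (r ^ 2 / 1000000) + 36 * r)) ≤ ((N : ℝ) + 1) * Real.log q := by
      have hneg : 0 ≤ 4 + 2 * (r ^ 2 / 1000000) + 36 * r := by positivity
      calc -(17 * r ^ 2 * (4 + 2 * (r ^ 2 / 1000000) + 36 * r))
          ≤ -(((N : ℝ) + 1) * (4 + 2 * (r ^ 2 / 1000000) + 36 * r)) := by
            apply neg_le_neg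
            gcongr
        _ = ((N : ℝ) + 1) * (-(4 + 2 * (r ^ 2 / 1000000) + 36 * r)) := by ring
        _ ≤ _ := by gcongr
    have h4 : 17 * r ^ 2 * (4 + 2 * (r ^ 2 / 1000000) + 36 * r) + 1 ≤ r ^ 4 / 1000 := by
      have hr1 : 1 ≤ r := by linarith
      have a1 : r ^ 3 * 1000000 ≤ r ^ 4 := by
        rw [show r ^ 4 = r ^ 3 * r by ring]; gcongr
      have a2 : r ^ 2 * 1000000 ≤ r ^ 3 := by
        rw [show r ^ 3 = r ^ 2 * r by ring]; gcongr
      have a3 : 1 ≤ r ^ 2 := one_le_pow₀ hr1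
      nlinarith
    linarith
  calc Real.exp (-(r ^ 4 / 1000)) ≤ Real.exp (Real.log (q ^ (N + 1) / 2)) := Real.exp_le_exp.mpr h1
    _ = q ^ (N + 1) / 2 := Real.exp_log (by positivity)

/-! ### the transfinite diameter -/

/-- product of the mutual distances over all ordered pairs -/
noncomputable def dprod {n : ℕ} (z : Fin n → ℂ) : ℝ :=
  ∏ p ∈ (Finset.univ : Finset (Fin n)).offDiag, ‖z p.1 - z p.2‖

lemma dprod_nonneg {n : ℕ} (z : Fin n → ℂ) : 0 ≤ dprod z :=
  Finset.prod_nonneg (fun _ _ => norm_nonneg _)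

/-- the row factor -/
noncomputable def dd {n : ℕ} (z : Fin n → ℂ) (i j : Fin n) : ℝ :=
  if i = j then 1 else ‖z i - z j‖

lemma dprod_eq {n : ℕ} (z : Fin n → ℂ) : dprod z = ∏ i, ∏ j, dd z i j := by
  have hoff : (Finset.univ : Finset (Fin n)).offDiag
      = (Finset.univ ×ˢ Finset.univ).filter (fun p : Fin n × Fin n => p.1 ≠ p.2) := by
    ext p; simp
  rw [dprod, hoff, Finset.prod_filter]
  rw [Finset.prod_product]
  apply Finset.prod_congr rfl
  intro i _
  apply Finset.prod_congr rfl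
  intro j _
  unfold dd
  by_cases h : i = j <;> simp [h]

lemma dd_symm {n : ℕ} (z : Fin n → ℂ) (i j : Fin n) : dd z i j = dd z j i := by
  unfold dd
  by_cases h : i = j
  · simp [h]
  · rw [if_neg h, if_neg (fun h' => h h'.symm), norm_sub_rev]

lemma dprod_split {n : ℕ} (z : Fin (n + 1) → ℂ) (k : Fin (n + 1)) :
    dprod z = (∏ j, dd z k j) ^ 2 * dprod (fun i => z (k.succAbove i)) := by
  rw [dprod_eq, dprod_eq]
  rw [Fin.prod_univ_succAbove _ k]
  have h1 : ∀ i : Fin n, ∏ j, dd z (k.succAbove i) j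
      = dd z (k.succAbove i) k * ∏ j, dd (fun i => z (k.succAbove i)) i j := by
    intro i
    rw [Fin.prod_univ_succAbove _ k]
    congr 1
    apply Finset.prod_congr rfl
    intro j _
    unfold dd
    simp [Fin.succAbove_right_inj]
  rw [Finset.prod_congr rfl (fun i _ => h1 i), Finset.prod_mul_distrib]
  have h2 : ∏ i : Fin n, dd z (k.succAbove i) k = ∏ j, dd z k j := by
    rw [Fin.prod_univ_succAbove (fun j => dd z k j) k]
    have : dd z k k = 1 := by simp [dd]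
    rw [this, one_mul]
    exact Finset.prod_congr rfl (fun i _ => dd_symm z _ _)
  rw [h2]; ring

lemma dprod_pow {n : ℕ} (z : Fin (n + 2 + 1) → ℂ) (hz : 0 < dprod z) :
    dprod z ^ (n + 1) = ∏ k : Fin (n + 2 + 1), dprod (fun i => z (k.succAbove i)) := by
  have h1 : dprod z ^ (n + 3)
      = dprod z ^ 2 * ∏ k : Fin (n + 2 + 1), dprod (fun i => z (k.succAbove i)) := by
    calc dprod z ^ (n + 3) = ∏ _k : Fin (n + 2 + 1), dprod z := by
          rw [Finset.prod_const, Finset.card_univ, Fintype.card_fin]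
      _ = ∏ k : Fin (n + 2 + 1), ((∏ j, dd z k j) ^ 2 * dprod (fun i => z (k.succAbove i))) :=
          Finset.prod_congr rfl (fun k _ => dprod_split z k)
      _ = _ := by
          rw [Finset.prod_mul_distrib, Finset.prod_pow, ← dprod_eq]
  have h2 : dprod z ^ (n + 3) = dprod z ^ 2 * dprod z ^ (n + 1) := by ring
  rw [h2] at h1
  exact mul_left_cancel₀ (pow_ne_zero 2 hz.ne') h1

lemma nthDiam_bdd {K : Set ℂ} {D : ℝ} (hD : 0 ≤ D) (hK : ∀ x ∈ K, ∀ y ∈ K, ‖x - y‖ ≤ D)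
    (n : ℕ) (hn : 2 ≤ n) (z : Fin n → ℂ) (hz : ∀ i, z i ∈ K) :
    dprod z ^ (1 / ((n : ℝ) * ((n : ℝ) - 1))) ≤ D := by
  have hn' : (2 : ℝ) ≤ n := by exact_mod_cast hn
  have h1 : dprod z ≤ D ^ (n * n - n) := by
    calc dprod z ≤ ∏ p ∈ (Finset.univ : Finset (Fin n)).offDiag, D := by
          apply Finset.prod_le_prod
          · intro _ _; exact norm_nonneg _
          · intro p _; exact hK _ (hz _) _ (hz _)
      _ = D ^ (n * n - n) := by
          rw [Finset.prod_const, Finset.offDiag_card, Finset.card_univ, Fintype.card_fin]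
  have hcast : ((n * n - n : ℕ) : ℝ) = (n : ℝ) * ((n : ℝ) - 1) := by
    rw [Nat.cast_sub (by nlinarith)]; push_cast; ring
  have hpos : 0 < (n : ℝ) * ((n : ℝ) - 1) := by
    apply mul_pos <;> linarith
  calc dprod z ^ (1 / ((n : ℝ) * ((n : ℝ) - 1)))
      ≤ (D ^ (n * n - n)) ^ (1 / ((n : ℝ) * ((n : ℝ) - 1))) :=
        Real.rpow_le_rpow (dprod_nonneg z) h1 (by positivity)
    _ = D := by
        rw [← Real.rpow_natCast, hcast, ← Real.rpow_mul hD]
        rw [mul_one_div_cancel hpos.ne', Real.rpow_one]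

lemma nthDiam_bddAbove {K : Set ℂ} {D : ℝ} (hD : 0 ≤ D) (hK : ∀ x ∈ K, ∀ y ∈ K, ‖x - y‖ ≤ D)
    (n : ℕ) (hn : 2 ≤ n) :
    BddAbove {x : ℝ | ∃ z : Fin n → ℂ, (∀ i, z i ∈ K) ∧
    x = (∏ p ∈ (Finset.univ : Finset (Fin n)).offDiag, ‖z p.1 - z p.2‖) ^
      (1 / ((n : ℝ) * ((n : ℝ) - 1)))} := by
  refine ⟨D, ?_⟩
  rintro x ⟨z, hz, rfl⟩
  exact nthDiam_bdd hD hK n hn z hz

lemma le_nthDiam {K : Set ℂ} {D : ℝ} (hD : 0 ≤ D) (hK : ∀ x ∈ K, ∀ y ∈ K, ‖x - y‖ ≤ D)
    (n : ℕ) (hn : 2 ≤ n) (z : Fin n → ℂ) (hz : ∀ i, z i ∈ K) :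
    dprod z ^ (1 / ((n : ℝ) * ((n : ℝ) - 1))) ≤ nthDiam K n :=
  le_csSup (nthDiam_bddAbove hD hK n hn) ⟨z, hz, rfl⟩

lemma nthDiam_anti {K : Set ℂ} {D : ℝ} (hD : 0 ≤ D) (hK : ∀ x ∈ K, ∀ y ∈ K, ‖x - y‖ ≤ D)
    (hne : K.Nonempty) (n : ℕ) : nthDiam K (n + 2 + 1) ≤ nthDiam K (n + 2) := by
  obtain ⟨a, ha⟩ := hne
  have hd0 : 0 ≤ nthDiam K (n + 2) :=
    le_trans (Real.rpow_nonneg (dprod_nonneg _) _)
      (le_nthDiam hD hK (n + 2) (by omega) (fun _ => a) (fun _ => ha))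
  apply csSup_le
  · exact ⟨_, fun _ => a, fun _ => ha, rfl⟩
  rintro x ⟨z, hz, rfl⟩
  change dprod z ^ _ ≤ _
  set d := nthDiam K (n + 2) with hd
  have hexp : (0 : ℝ) < ((n + 2 + 1 : ℕ) : ℝ) * (((n + 2 + 1 : ℕ) : ℝ) - 1) := by
    push_cast
    have : (0 : ℝ) ≤ n := Nat.cast_nonneg n
    apply mul_pos <;> linarith
  rcases (dprod_nonneg z).eq_or_lt with h0 | hpos
  · rw [← h0, Real.zero_rpow (by positivity)]
    exact hd0
  · have h1 := dprod_pow z hpos
    have h2 : ∀ k : Fin (n + 2 + 1), dprod (fun i => z (k.succAbove i)) ≤ d ^ ((n + 2) * (n + 1)) := by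
      intro k
      have h3 := le_nthDiam hD hK (n + 2) (by omega) (fun i => z (k.succAbove i)) (fun i => hz _)
      rw [← hd] at h3
      have hq : (0 : ℝ) < ((n + 2 : ℕ) : ℝ) * (((n + 2 : ℕ) : ℝ) - 1) := by
        push_cast
        have : (0 : ℝ) ≤ n := Nat.cast_nonneg n
        apply mul_pos <;> linarith
      have h4 := Real.rpow_le_rpow (Real.rpow_nonneg (dprod_nonneg _) _) h3 hq.le
      rw [← Real.rpow_mul (dprod_nonneg _), one_div_mul_cancel hq.ne', Real.rpow_one] at h4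
      have h5 : ((n + 2 : ℕ) : ℝ) * (((n + 2 : ℕ) : ℝ) - 1) = (((n + 2) * (n + 1) : ℕ) : ℝ) := by
        push_cast; ring
      rw [h5, Real.rpow_natCast] at h4
      exact h4
    have h3 : dprod z ^ (n + 1) ≤ (d ^ ((n + 3) * (n + 2))) ^ (n + 1) := by
      rw [h1]
      calc ∏ k : Fin (n + 2 + 1), dprod (fun i => z (k.succAbove i))
          ≤ ∏ _k : Fin (n + 2 + 1), d ^ ((n + 2) * (n + 1)) :=
            Finset.prod_le_prod (fun _ _ => dprod_nonneg _) (fun k _ => h2 k)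
        _ = (d ^ ((n + 3) * (n + 2))) ^ (n + 1) := by
            rw [Finset.prod_const, Finset.card_univ, Fintype.card_fin, ← pow_mul, ← pow_mul]
            congr 1; ring
    have h4 : dprod z ≤ d ^ ((n + 3) * (n + 2)) :=
      le_of_pow_le_pow_left₀ (by omega) (by positivity) h3
    have h5 : ((n + 2 + 1 : ℕ) : ℝ) * (((n + 2 + 1 : ℕ) : ℝ) - 1) = (((n + 3) * (n + 2) : ℕ) : ℝ) := by
      push_cast; ring
    calc dprod z ^ (1 / (((n + 2 + 1 : ℕ) : ℝ) * (((n + 2 + 1 : ℕ) : ℝ) - 1)))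
        ≤ (d ^ ((n + 3) * (n + 2))) ^ (1 / (((n + 2 + 1 : ℕ) : ℝ) * (((n + 2 + 1 : ℕ) : ℝ) - 1))) :=
          Real.rpow_le_rpow (dprod_nonneg _) h4 (by positivity)
      _ = d := by
          rw [h5, ← Real.rpow_natCast, ← Real.rpow_mul hd0]
          rw [mul_one_div_cancel, Real.rpow_one]
          have : (0 : ℝ) < (((n + 3) * (n + 2) : ℕ) : ℝ) := by positivity
          exact this.ne'

lemma prod_abs_sub (i m : ℕ) (h : i ≤ m) :
    ∏ j ∈ (Finset.range (m + 1)).erase i, |(i : ℝ) - j| = (i.factorial : ℝ) * ((m - i).factorial : ℝ) := by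
  induction m, h using Nat.le_induction with
  | base =>
    have h1 : (Finset.range (i + 1)).erase i = Finset.range i := by
      ext a; simp only [Finset.mem_erase, Finset.mem_range]; omega
    rw [h1, Nat.sub_self, Nat.factorial_zero, Nat.cast_one, mul_one]
    rw [← Finset.prod_range_reflect, ← Finset.prod_range_add_one_eq_factorial]
    push_cast
    apply Finset.prod_congr rfl
    intro j hj
    have hj' := Finset.mem_range.mp hj
    rw [Nat.sub_sub, Nat.cast_sub (by omega)]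
    push_cast
    rw [show (i : ℝ) - (i - (1 + j)) = j + 1 by ring]
    exact abs_of_nonneg (by positivity)
  | succ m hm ih =>
    have h1 : (Finset.range (m + 1 + 1)).erase i = insert (m + 1) ((Finset.range (m + 1)).erase i) := by
      ext a; simp only [Finset.mem_erase, Finset.mem_range, Finset.mem_insert]; omega
    rw [h1, Finset.prod_insert (by simp), ih]
    have h2 : m + 1 - i = (m - i) + 1 := by omega
    rw [h2, Nat.factorial_succ]
    have h3 : |(i : ℝ) - ((m + 1 : ℕ) : ℝ)| = ((m - i + 1 : ℕ) : ℝ) := by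
      rw [abs_sub_comm]
      have : ((m - i + 1 : ℕ) : ℝ) = ((m + 1 : ℕ) : ℝ) - i := by
        rw [← Nat.cast_sub (by omega), h2]
      rw [this, abs_of_nonneg]
      have : (i : ℝ) ≤ ((m + 1 : ℕ) : ℝ) := by exact_mod_cast (by omega : i ≤ m + 1)
      linarith
    rw [h3]; push_cast; ring

lemma fact_mul_ge (i m : ℕ) (h : i ≤ m) (hm : 1 ≤ m) :
    ((m : ℝ) / (2 * Real.exp 1)) ^ m ≤ (i.factorial : ℝ) * ((m - i).factorial : ℝ) := by
  have h1 : (m.choose i : ℝ) ≤ 2 ^ m := by exact_mod_cast Nat.choose_le_two_pow m i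
  have h2 : (m.choose i : ℝ) * i.factorial * (m - i).factorial = m.factorial := by
    exact_mod_cast Nat.choose_mul_factorial_mul_factorial h
  have h3 : ((m : ℝ) / Real.exp 1) ^ m ≤ m.factorial := by
    have := Real.pow_div_factorial_le_exp (m : ℝ) (Nat.cast_nonneg m) m
    rw [div_le_iff₀ (by positivity)] at this
    rw [div_pow, ← Real.exp_nat_mul, mul_one, div_le_iff₀ (Real.exp_pos _)]
    linarith
  have hpos : (0 : ℝ) < i.factorial * (m - i).factorial := by positivity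
  have h4 : (m.factorial : ℝ) ≤ 2 ^ m * (i.factorial * (m - i).factorial) := by
    rw [← h2, mul_assoc]; gcongr
  have h5 : ((m : ℝ) / (2 * Real.exp 1)) ^ m = ((m : ℝ) / Real.exp 1) ^ m / 2 ^ m := by
    rw [← div_pow]; congr 1; field_simp
  rw [h5, div_le_iff₀ (by positivity)]
  linarith

/-- lower bound for the `n`-th diameter of a set containing `[0,1]` -/
lemma nthDiam_ge {K : Set ℂ} {D : ℝ} (hD : 0 ≤ D) (hK : ∀ x ∈ K, ∀ y ∈ K, ‖x - y‖ ≤ D)
    (hseg : ∀ t : ℝ, 0 ≤ t → t ≤ 1 → (t : ℂ) ∈ K) (n : ℕ) (hn : 2 ≤ n) :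
    1 / (2 * Real.exp 1) ≤ nthDiam K n := by
  obtain ⟨m, rfl⟩ : ∃ m, n = m + 1 := ⟨n - 1, by omega⟩
  have hm : 1 ≤ m := by omega
  have hm' : (1 : ℝ) ≤ m := by exact_mod_cast hm
  set z : Fin (m + 1) → ℂ := fun i => (((i : ℕ) / (m : ℝ) : ℝ) : ℂ) with hz
  refine le_trans ?_ (le_nthDiam hD hK (m + 1) hn z ?_)
  swap
  · intro i
    apply hseg
    · positivity
    · rw [div_le_one (by positivity)]
      have := i.2
      exact_mod_cast (by omega : (i : ℕ) ≤ m)
  have hrow : ∀ i : Fin (m + 1), (1 / (2 * Real.exp 1)) ^ m ≤ ∏ j, dd z i j := by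
    intro i
    have h1 : ∏ j, dd z i j = ∏ j ∈ Finset.range (m + 1),
        (if (i : ℕ) = j then 1 else |((i : ℕ) : ℝ) - j| / m) := by
      rw [← Fin.prod_univ_eq_prod_range (fun j => if (i : ℕ) = j then (1 : ℝ) else |((i : ℕ) : ℝ) - j| / m)]
      apply Finset.prod_congr rfl
      intro j _
      unfold dd
      by_cases h : i = j
      · simp [h]
      · have h' : ¬ (i : ℕ) = (j : ℕ) := fun h' => h (Fin.ext h')
        rw [if_neg h, if_neg h']
        simp only [hz]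
        rw [← Complex.ofReal_sub, Complex.norm_real, Real.norm_eq_abs, ← sub_div, abs_div,
          abs_of_nonneg (show (0 : ℝ) ≤ m by positivity)]
    rw [h1]
    have hi : (i : ℕ) ≤ m := by have := i.2; omega
    have hmem : (i : ℕ) ∈ Finset.range (m + 1) := Finset.mem_range.mpr i.2
    rw [← Finset.mul_prod_erase _ _ hmem, if_pos rfl, one_mul]
    have h2 : ∏ j ∈ (Finset.range (m + 1)).erase (i : ℕ),
        (if (i : ℕ) = j then (1 : ℝ) else |((i : ℕ) : ℝ) - j| / m)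
        = (∏ j ∈ (Finset.range (m + 1)).erase (i : ℕ), |((i : ℕ) : ℝ) - j|) / (m : ℝ) ^ m := by
      have hc : ((Finset.range (m + 1)).erase (i : ℕ)).card = m := by
        rw [Finset.card_erase_of_mem hmem, Finset.card_range]; omega
      have hc2 : (m : ℝ) ^ m = ∏ _j ∈ (Finset.range (m + 1)).erase (i : ℕ), (m : ℝ) := by
        rw [Finset.prod_const, hc]
      rw [hc2, ← Finset.prod_div_distrib]
      apply Finset.prod_congr rfl
      intro j hj
      have : ¬ (i : ℕ) = j := by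
        intro h
        have := (Finset.mem_erase.mp hj).1
        exact this h.symm
      rw [if_neg this]
    rw [h2, prod_abs_sub _ _ hi]
    rw [le_div_iff₀ (by positivity), ← mul_pow]
    have := fact_mul_ge _ _ hi hm
    rw [show 1 / (2 * Real.exp 1) * (m : ℝ) = (m : ℝ) / (2 * Real.exp 1) by ring]
    exact this
  have hprod : ((1 / (2 * Real.exp 1)) ^ m) ^ (m + 1) ≤ dprod z := by
    rw [dprod_eq]
    calc ((1 / (2 * Real.exp 1)) ^ m) ^ (m + 1) = ∏ _i : Fin (m + 1), (1 / (2 * Real.exp 1)) ^ m := by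
          rw [Finset.prod_const, Finset.card_univ, Fintype.card_fin]
      _ ≤ _ := Finset.prod_le_prod (fun _ _ => by positivity) (fun i _ => hrow i)
  have hcast : (((m + 1 : ℕ) : ℝ) * (((m + 1 : ℕ) : ℝ) - 1)) = ((m * (m + 1) : ℕ) : ℝ) := by
    push_cast; ring
  have hpos : (0 : ℝ) < ((m * (m + 1) : ℕ) : ℝ) := by positivity
  rw [hcast]
  calc 1 / (2 * Real.exp 1) = (((1 / (2 * Real.exp 1)) ^ m) ^ (m + 1)) ^ (1 / ((m * (m + 1) : ℕ) : ℝ)) := by
        rw [← pow_mul, ← Real.rpow_natCast, ← Real.rpow_mul (by positivity),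
          mul_one_div_cancel hpos.ne', Real.rpow_one]
    _ ≤ _ := Real.rpow_le_rpow (by positivity) hprod (by positivity)

lemma exists_capacity {K : Set ℂ} {D : ℝ} (hD : 0 ≤ D) (hK : ∀ x ∈ K, ∀ y ∈ K, ‖x - y‖ ≤ D)
    (hseg : ∀ t : ℝ, 0 ≤ t → t ≤ 1 → (t : ℂ) ∈ K) :
    ∃ c, HasCapacity K c ∧ 1 / (2 * Real.exp 1) ≤ c := by
  have hne : K.Nonempty := ⟨((0 : ℝ) : ℂ), hseg 0 le_rfl zero_le_one⟩
  have hanti : Antitone (fun n => nthDiam K (n + 2)) :=
    antitone_nat_of_succ_le (fun n => nthDiam_anti hD hK hne n)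
  have hge : ∀ n, 1 / (2 * Real.exp 1) ≤ nthDiam K (n + 2) :=
    fun n => nthDiam_ge hD hK hseg (n + 2) (by omega)
  have hbdd : BddBelow (Set.range (fun n => nthDiam K (n + 2))) :=
    ⟨1 / (2 * Real.exp 1), by rintro _ ⟨n, rfl⟩; exact hge n⟩
  have hlim := tendsto_atTop_ciInf hanti hbdd
  refine ⟨⨅ n, nthDiam K (n + 2), ?_, ?_⟩
  · exact (tendsto_add_atTop_iff_nat 2).mp hlim
  · exact le_ciInf hge

/-! ### topology of the rectangle -/

lemma thinRect_eq : thinRect = Set.Icc (-1 : ℝ) 1 ×ℂ Set.Icc (-(1 / 1000) : ℝ) (1 / 1000) := by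
  ext z
  simp only [thinRect, Set.mem_ofPred_eq, Complex.mem_reProdIm, Set.mem_Icc, abs_le]

lemma thinRect_compact : IsCompact thinRect := by
  rw [thinRect_eq]
  exact IsCompact.reProdIm isCompact_Icc isCompact_Icc

lemma thinRect_convex : Convex ℝ thinRect := by
  rw [thinRect_eq, ← convexHull_eq_self, Complex.convexHull_reProdIm,
    (convex_Icc _ _).convexHull_eq, (convex_Icc _ _).convexHull_eq]

lemma zero_mem_thinRect : (0 : ℂ) ∈ thinRect := by
  simp [thinRect]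

lemma thinRect_interior : (interior thinRect).Nonempty := by
  rw [thinRect_eq, Complex.interior_reProdIm, interior_Icc, interior_Icc]
  refine ⟨0, ?_⟩
  rw [Complex.mem_reProdIm]
  constructor <;> constructor <;> norm_num

lemma thinRect_diam : ∀ x ∈ thinRect, ∀ y ∈ thinRect, ‖x - y‖ ≤ 3 := by
  rintro x ⟨h1, h2⟩ y ⟨h3, h4⟩
  refine (Complex.norm_le_abs_re_add_abs_im _).trans ?_
  rw [Complex.sub_re, Complex.sub_im]
  have a1 := abs_sub x.re y.re
  have a2 := abs_sub x.im y.im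
  linarith

lemma thinRect_seg : ∀ t : ℝ, 0 ≤ t → t ≤ 1 → (t : ℂ) ∈ thinRect := by
  intro t h0 h1
  simp only [thinRect, Set.mem_ofPred_eq, Complex.ofReal_re, Complex.ofReal_im, abs_zero]
  exact ⟨by rwa [abs_of_nonneg h0], by norm_num⟩

instance stdGauss_prob : IsProbabilityMeasure stdGauss := by
  constructor
  have hint : Integrable (fun w : ℂ => Real.exp (-1 * ‖w‖ ^ 2)) := by
    have h := (GaussianFourier.integrable_cexp_neg_mul_sq_norm_add (V := ℂ) (b := 1)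
      (by norm_num) 0 0).norm
    refine h.congr ?_
    refine Filter.Eventually.of_forall (fun w => ?_)
    simp only [Complex.norm_exp]
    congr 1
    simp [← Complex.ofReal_pow]
  have h1 : ∫⁻ w : ℂ, ENNReal.ofReal (Real.exp (-1 * ‖w‖ ^ 2)) = ENNReal.ofReal Real.pi := by
    rw [← ofReal_integral_eq_lintegral_ofReal hint
      (Filter.Eventually.of_forall fun w => by positivity)]
    rw [GaussianFourier.integral_rexp_neg_mul_sq_norm (V := ℂ) (by norm_num : (0 : ℝ) < 1)]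
    congr 1
    rw [Complex.finrank_real_complex]
    norm_num
  rw [stdGauss, withDensity_apply _ MeasurableSet.univ, Measure.restrict_univ]
  calc ∫⁻ w : ℂ, ENNReal.ofReal (Real.pi⁻¹ * Real.exp (-‖w‖ ^ 2))
      = ∫⁻ w : ℂ, ENNReal.ofReal Real.pi⁻¹ * ENNReal.ofReal (Real.exp (-1 * ‖w‖ ^ 2)) := by
        apply lintegral_congr
        intro w
        rw [← ENNReal.ofReal_mul (by positivity)]
        congr 3
        ring
    _ = 1 := by
        rw [lintegral_const_mul' _ _ ENNReal.ofReal_ne_top, h1,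
          ← ENNReal.ofReal_mul (by positivity), inv_mul_cancel₀ Real.pi_ne_zero, ENNReal.ofReal_one]

/-- `ξ` is a sequence of independent standard complex Gaussian variables. -/
def IsGaussSeq {Ω : Type} [MeasurableSpace Ω] (μ : Measure Ω) (ξ : ℕ → Ω → ℂ) : Prop :=
  (∀ n, Measurable (ξ n)) ∧ iIndepFun ξ μ ∧ ∀ n, μ.map (ξ n) = stdGauss

lemma exists_model : ∃ (Ω : Type) (_ : MeasurableSpace Ω) (μ : Measure Ω) (ξ : ℕ → Ω → ℂ),
    IsProbabilityMeasure μ ∧ IsGaussSeq μ ξ := by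
  obtain ⟨Ω, m, P, X, h1, h2, h3, h4⟩ := exists_iid ℕ stdGauss
  exact ⟨Ω, m, P, X, h4, h1, h3, fun n => (h2 n).map_eq⟩

lemma const_lt (c : ℝ) (hc : 1 / (2 * Real.exp 1) ≤ c) : 1 / 1000 < Real.exp 2 / 4 * c ^ 4 := by
  have he : Real.exp 1 < 2.7182818286 := Real.exp_one_lt_d9
  have hpos : 0 < Real.exp 1 := Real.exp_pos 1
  have h2 : Real.exp 2 = Real.exp 1 ^ 2 := by rw [← Real.exp_nat_mul]; norm_num
  have h4 : (1 / (2 * Real.exp 1)) ^ 4 ≤ c ^ 4 := by gcongr
  have h5 : Real.exp 2 / 4 * (1 / (2 * Real.exp 1)) ^ 4 = 1 / (64 * Real.exp 1 ^ 2) := by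
    rw [h2]; field_simp; norm_num
  have h6 : 1 / 1000 < 1 / (64 * Real.exp 1 ^ 2) := by
    apply one_div_lt_one_div_of_lt (by positivity)
    nlinarith
  calc (1 : ℝ) / 1000 < 1 / (64 * Real.exp 1 ^ 2) := h6
    _ = Real.exp 2 / 4 * (1 / (2 * Real.exp 1)) ^ 4 := h5.symm
    _ ≤ _ := by gcongr

/-- **The capacity formula for hole probabilities of the Gaussian entire function is false.**
There is a compact convex set `K` with non-empty interior (the closed rectangle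
`[-1,1] × [-1/1000, 1/1000]`), of capacity `c` with `(e²/4) c⁴ > 1/1000`, for which
`P(f ≠ 0 on rK) ≥ exp(-r⁴/1000)` for all large `r`; hence `-log P(f ≠ 0 on rK) / r⁴` does not
converge to `(e²/4) c⁴`. -/
theorem result :
    (∃ (Ω : Type) (_ : MeasurableSpace Ω) (μ : Measure Ω) (ξ : ℕ → Ω → ℂ),
      IsProbabilityMeasure μ ∧ IsGaussSeq μ ξ) ∧
    ∃ K : Set ℂ, IsCompact K ∧ Convex ℝ K ∧ IsConnected K ∧ (interior K).Nonempty ∧
      ∃ c : ℝ, HasCapacity K c ∧ 1 / 1000 < Real.exp 2 / 4 * c ^ 4 ∧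
        ∀ (Ω : Type) [MeasurableSpace Ω] (μ : Measure Ω) [IsProbabilityMeasure μ]
          (ξ : ℕ → Ω → ℂ), IsGaussSeq μ ξ →
          (∀ᶠ r : ℝ in atTop, Real.exp (-(r ^ 4 / 1000)) ≤ holeProb μ ξ K r) ∧
          ¬ Tendsto (fun r : ℝ => -Real.log (holeProb μ ξ K r) / r ^ 4) atTop
            (𝓝 (Real.exp 2 / 4 * c ^ 4)) := by
  refine ⟨exists_model, thinRect, thinRect_compact, thinRect_convex,
    thinRect_convex.isConnected ⟨0, zero_mem_thinRect⟩, thinRect_interior, ?_⟩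
  obtain ⟨c, hc, hc2⟩ := exists_capacity (K := thinRect) (D := 3) (by norm_num) thinRect_diam
    thinRect_seg
  refine ⟨c, hc, const_lt c hc2, ?_⟩
  intro Ω _ μ _ ξ ⟨hm, hind, hlaw⟩
  have hev : ∀ᶠ r : ℝ in atTop, Real.exp (-(r ^ 4 / 1000)) ≤ holeProb μ ξ thinRect r := by
    filter_upwards [eventually_ge_atTop (1000000 : ℝ)] with r hr
    exact (cost_bound r hr).trans (hole_lower μ ξ hm hind hlaw r (by linarith))
  refine ⟨hev, ?_⟩
  intro hlim
  have hle : Real.exp 2 / 4 * c ^ 4 ≤ 1 / 1000 := by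
    apply le_of_tendsto hlim
    filter_upwards [hev, eventually_ge_atTop (1 : ℝ)] with r hr hr1
    have h1 : -(r ^ 4 / 1000) ≤ Real.log (holeProb μ ξ thinRect r) := by
      rw [← Real.log_exp (-(r ^ 4 / 1000))]
      exact Real.log_le_log (Real.exp_pos _) hr
    rw [div_le_iff₀ (by positivity)]
    linarith
  have := const_lt c hc2
  linarith

end Pool.Agent.Results.MP_629fb1_pr.CapacityFormulaFails
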